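import Mathlib
import Pool.Agent.H577R3.Prod2
import Pool.Agent.H577R3.Alg1

/-!
# A centreless partially commutative metabelian group not bi-interpretable with arithmetic

For the four-cycle `Γ` (the complete bipartite graph with parts of two vertices) the partially
commutative metabelian group `M_Γ` is the direct square of the free metabelian group of rank two. It
has trivial centre. Every subset of a power of a direct product of two groups which is first-order
definable with parameters is a finite union of rectangles, whereas a bi-interpretation with `ℕ`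
would make the relation comparing the smallest codes of an element of the first factor and an
element of the second factor definable. Hence `M_Γ` is not bi-interpretable with `ℕ`.
-/

set_option autoImplicit false

namespace Pool.Agent.Results.MP_5cf697_lc.FourCycle

open Pool.Agent.H577R3 Pool.Agent.H577R3.Prd Pool.Agent.Helper777.Prof

/-- The normal subgroup of the free group on `V` generated by the commutators of adjacent vertices
and the second derived subgroup. -/
def relSub {V : Type} (Γ : SimpleGraph V) : Subgroup (FreeGroup V) :=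
  Subgroup.normalClosure {w | ∃ u v, Γ.Adj u v ∧ w = FreeGroup.of u * FreeGroup.of v *
      (FreeGroup.of u)⁻¹ * (FreeGroup.of v)⁻¹} ⊔
    derivedSeries (FreeGroup V) 2

instance {V : Type} (Γ : SimpleGraph V) : (relSub Γ).Normal := by
  unfold relSub
  infer_instance

/-- The partially commutative metabelian group of the graph `Γ`. -/
abbrev PCM {V : Type} (Γ : SimpleGraph V) : Type := FreeGroup V ⧸ relSub Γ

theorem comm_hom {K ι κ : Type} [Group K] (f : FreeGroup ι →* K) (g : FreeGroup κ →* K)
    (h : ∀ i j, Commute (f (FreeGroup.of i)) (g (FreeGroup.of j))) (a : FreeGroup ι)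
    (b : FreeGroup κ) : Commute (f a) (g b) := by
  have h1 : ∀ i, ∀ b, Commute (f (FreeGroup.of i)) (g b) := by
    intro i b
    induction b using FreeGroup.induction_on with
    | C1 => rw [map_one]; exact Commute.one_right _
    | of j => exact h i j
    | inv_of j _ => rw [map_inv]; exact (h i j).inv_right
    | mul x y hx hy => rw [map_mul]; exact hx.mul_right hy
  induction a using FreeGroup.induction_on with
  | C1 => rw [map_one]; exact Commute.one_left _
  | of i => exact h1 i b
  | inv_of i _ => rw [map_inv]; exact (h1 i b).inv_left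
  | mul x y hx hy => rw [map_mul]; exact hx.mul_left hy

theorem ds_dq (ι : Type) : derivedSeries (Dq ι 2) 2 = ⊥ := by
  rw [← map_derivedSeries_eq (QuotientGroup.mk'_surjective (derivedSeries (FreeGroup ι) 2)) 2,
    Subgroup.map_eq_bot_iff, QuotientGroup.ker_mk']

theorem ds_pcm {V : Type} (Γ : SimpleGraph V) : derivedSeries (PCM Γ) 2 = ⊥ := by
  rw [← map_derivedSeries_eq (QuotientGroup.mk'_surjective (relSub Γ)) 2,
    Subgroup.map_eq_bot_iff, QuotientGroup.ker_mk']
  exact le_sup_right

theorem kill {ι K : Type} [Group K] (hK : derivedSeries K 2 = ⊥) (f : FreeGroup ι →* K) :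
    derivedSeries (FreeGroup ι) 2 ≤ f.ker := by
  intro w hw
  rw [MonoidHom.mem_ker]
  have h := map_derivedSeries_le_derivedSeries f 2 (Subgroup.mem_map_of_mem f hw)
  rwa [hK, Subgroup.mem_bot] at h

/-- the four-cycle -/
abbrev C4 : SimpleGraph (Fin 2 ⊕ Fin 2) := completeBipartiteGraph (Fin 2) (Fin 2)

theorem lift_kill {K : Type} [Group K] (hK : derivedSeries K 2 = ⊥) (F : Fin 2 ⊕ Fin 2 → K)
    (hF : ∀ i j, Commute (F (Sum.inl i)) (F (Sum.inr j))) :
    relSub C4 ≤ (FreeGroup.lift F).ker := by
  unfold relSub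
  rw [sup_le_iff]
  constructor
  · refine Subgroup.normalClosure_le_normal ?_
    rintro w ⟨u, v, huv, rfl⟩
    rw [SetLike.mem_coe, MonoidHom.mem_ker, map_mul, map_mul, map_mul, map_inv, map_inv,
      FreeGroup.lift_apply_of, FreeGroup.lift_apply_of, mul_inv_eq_one, mul_inv_eq_iff_eq_mul]
    rcases u with u | u <;> rcases v with v | v
    · simp at huv
    · exact hF u v
    · exact (hF v u).symm
    · simp at huv
  · exact kill hK _

/-- the first projection -/
def p1 : PCM C4 →* Dq (Fin 2) 2 :=
  QuotientGroup.lift _ (FreeGroup.lift (Sum.elim (fun i => pn (Fin 2) 2 (FreeGroup.of i))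
    (fun _ => 1))) (lift_kill (ds_dq _) _ (fun _ _ => Commute.one_right _))

/-- the second projection -/
def p2 : PCM C4 →* Dq (Fin 2) 2 :=
  QuotientGroup.lift _ (FreeGroup.lift (Sum.elim (fun _ => 1)
    (fun i => pn (Fin 2) 2 (FreeGroup.of i)))) (lift_kill (ds_dq _) _
      (fun _ _ => Commute.one_left _))

/-- the generators -/
def gen (v : Fin 2 ⊕ Fin 2) : PCM C4 := QuotientGroup.mk' (relSub C4) (FreeGroup.of v)

theorem gen_comm (i j : Fin 2) : Commute (gen (Sum.inl i)) (gen (Sum.inr j)) := by
  show gen (Sum.inl i) * gen (Sum.inr j) = gen (Sum.inr j) * gen (Sum.inl i)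
  rw [← mul_inv_eq_iff_eq_mul, ← mul_inv_eq_one]
  unfold gen
  rw [← map_inv, ← map_inv, ← map_mul, ← map_mul, ← map_mul]
  refine (QuotientGroup.eq_one_iff _).2 ?_
  refine Subgroup.mem_sup_left (Subgroup.subset_normalClosure ⟨_, _, ?_, rfl⟩)
  simp

/-- the first section -/
def s1 : Dq (Fin 2) 2 →* PCM C4 :=
  QuotientGroup.lift _ (FreeGroup.lift (fun i => gen (Sum.inl i))) (kill (ds_pcm _) _)

/-- the second section -/
def s2 : Dq (Fin 2) 2 →* PCM C4 :=
  QuotientGroup.lift _ (FreeGroup.lift (fun i => gen (Sum.inr i))) (kill (ds_pcm _) _)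

theorem s_comm (a b : Dq (Fin 2) 2) : Commute (s1 a) (s2 b) := by
  obtain ⟨a, rfl⟩ := QuotientGroup.mk'_surjective _ a
  obtain ⟨b, rfl⟩ := QuotientGroup.mk'_surjective _ b
  exact comm_hom (FreeGroup.lift (fun i => gen (Sum.inl i)))
    (FreeGroup.lift (fun i => gen (Sum.inr i)))
    (fun i j => by rw [FreeGroup.lift_apply_of, FreeGroup.lift_apply_of]; exact gen_comm i j) a b

theorem p1_gen (v) : p1 (gen v) = Sum.elim (fun i => pn (Fin 2) 2 (FreeGroup.of i))
    (fun _ => 1) v := by
  unfold p1 gen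
  rw [QuotientGroup.mk'_apply, QuotientGroup.lift_mk, FreeGroup.lift_apply_of]

theorem p2_gen (v) : p2 (gen v) = Sum.elim (fun _ => 1)
    (fun i => pn (Fin 2) 2 (FreeGroup.of i)) v := by
  unfold p2 gen
  rw [QuotientGroup.mk'_apply, QuotientGroup.lift_mk, FreeGroup.lift_apply_of]

theorem s1_gen (i) : s1 (pn (Fin 2) 2 (FreeGroup.of i)) = gen (Sum.inl i) := by
  unfold s1 pn
  rw [QuotientGroup.mk'_apply, QuotientGroup.lift_mk, FreeGroup.lift_apply_of]

theorem s2_gen (i) : s2 (pn (Fin 2) 2 (FreeGroup.of i)) = gen (Sum.inr i) := by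
  unfold s2 pn
  rw [QuotientGroup.mk'_apply, QuotientGroup.lift_mk, FreeGroup.lift_apply_of]

theorem dq_ext {K : Type} [Group K] (f g : Dq (Fin 2) 2 →* K)
    (h : ∀ i, f (pn (Fin 2) 2 (FreeGroup.of i)) = g (pn (Fin 2) 2 (FreeGroup.of i))) : f = g := by
  have h1 : f.comp (pn (Fin 2) 2) = g.comp (pn (Fin 2) 2) := by
    ext i
    exact h i
  ext i
  exact h i

theorem decomp (g : PCM C4) : s1 (p1 g) * s2 (p2 g) = g := by
  let Φ : PCM C4 →* PCM C4 :=
    { toFun := fun g => s1 (p1 g) * s2 (p2 g)
      map_one' := by simp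
      map_mul' := fun x y => by
        rw [map_mul, map_mul, map_mul, map_mul]
        have := (s_comm (p1 y) (p2 x)).eq
        calc s1 (p1 x) * s1 (p1 y) * (s2 (p2 x) * s2 (p2 y))
            = s1 (p1 x) * (s1 (p1 y) * s2 (p2 x)) * s2 (p2 y) := by group
          _ = s1 (p1 x) * (s2 (p2 x) * s1 (p1 y)) * s2 (p2 y) := by rw [this]
          _ = _ := by group }
  have h : Φ = MonoidHom.id _ := by
    ext v
    show s1 (p1 (gen v)) * s2 (p2 (gen v)) = gen v
    rw [p1_gen, p2_gen]
    rcases v with v | v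
    · simp [s1_gen]
    · simp [s2_gen]
  exact DFunLike.congr_fun h g

theorem p1_s1 (a) : p1 (s1 a) = a := by
  have h : p1.comp s1 = MonoidHom.id _ := dq_ext _ _ (fun i => by
    rw [MonoidHom.comp_apply, s1_gen, p1_gen]; rfl)
  exact DFunLike.congr_fun h a

theorem p2_s1 (a) : p2 (s1 a) = 1 := by
  have h : p2.comp s1 = 1 := dq_ext _ _ (fun i => by
    rw [MonoidHom.comp_apply, s1_gen, p2_gen]; rfl)
  exact DFunLike.congr_fun h a

theorem p1_s2 (a) : p1 (s2 a) = 1 := by
  have h : p1.comp s2 = 1 := dq_ext _ _ (fun i => by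
    rw [MonoidHom.comp_apply, s2_gen, p1_gen]; rfl)
  exact DFunLike.congr_fun h a

theorem p2_s2 (a) : p2 (s2 a) = a := by
  have h : p2.comp s2 = MonoidHom.id _ := dq_ext _ _ (fun i => by
    rw [MonoidHom.comp_apply, s2_gen, p2_gen]; rfl)
  exact DFunLike.congr_fun h a

theorem pair_surj (a b : Dq (Fin 2) 2) : ∃ g, p1 g = a ∧ p2 g = b :=
  ⟨s1 a * s2 b, by rw [map_mul, p1_s1, p1_s2, mul_one], by rw [map_mul, p2_s1, p2_s2, one_mul]⟩

theorem center_triv : Subgroup.center (PCM C4) = ⊥ := by
  rw [eq_bot_iff]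
  intro z hz
  rw [Subgroup.mem_bot]
  have h1 : p1 z ∈ Subgroup.center (Dq (Fin 2) 2) := by
    rw [Subgroup.mem_center_iff]
    intro a
    rw [← p1_s1 a, ← map_mul, ← map_mul, Subgroup.mem_center_iff.1 hz]
  have h2 : p2 z ∈ Subgroup.center (Dq (Fin 2) 2) := by
    rw [Subgroup.mem_center_iff]
    intro a
    rw [← p2_s2 a, ← map_mul, ← map_mul, Subgroup.mem_center_iff.1 hz]
  rw [center_dq (ι := Fin 2) 0, Subgroup.mem_bot] at h1 h2
  rw [← decomp z, h1, h2, map_one, map_one, mul_one]

/-- There is a finite graph (the four-cycle) whose partially commutative metabelian group has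
trivial centre and is not bi-interpretable with `(ℕ; +, ·, 0, 1)`. -/
theorem result : ∃ (V : Type) (_ : Fintype V) (_ : Nonempty V) (Γ : SimpleGraph V),
    Subgroup.center (PCM Γ) = ⊥ ∧ ¬ Bi.BiInterpNat (PCM Γ) := by
  refine ⟨Fin 2 ⊕ Fin 2, inferInstance, inferInstance, C4, center_triv, ?_⟩
  have : Infinite (Dq (Fin 2) 2) := infinite_dq 1
  exact not_biInterpNat (p := p1) (q := p2) pair_surj (fun g g' h1 h2 => by
    rw [← decomp g, ← decomp g', h1, h2])

end Pool.Agent.Results.MP_5cf697_lc.FourCycle
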